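import Pool.Agent.H71.CO.Targets
import Pool.Agent.H68.CQ.MEM

/-!
# MSR: the class of linearly ordered models is Borel
-/

set_option autoImplicit false

open Set

namespace Pool.Agent.H13.CO

open Pool.Agent.H71.CO
open Pool.Agent.H71.CQ (Formula Holds upd0 upd1 eta2)
open Pool.Agent.H68.CQ (meas_le_encard)

variable {C : Type} [MeasurableSpace C]

theorem meas_mem {Ω Ω' : Type} [MeasurableSpace Ω] [MeasurableSpace Ω'] {f : Ω' → Ω} {A : Set Ω}
    (hf : Measurable f) (hA : MeasurableSet A) : Measurable fun y => f y ∈ A :=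
  measurableSet_setOfPred.1 (hf hA)

theorem meas_at (i j : ℕ) : Measurable fun x : ℕ → ℕ → C => x i j :=
  (measurable_pi_apply j).comp (measurable_pi_apply i)

/-- truth of a formula is a Borel condition -/
theorem meas_holds (ψ : Formula C) : ∀ v : Fin 2 → ℕ,
    Measurable fun x : ℕ → ℕ → C => Holds (fun v : Fin 2 → ℕ => x (v 0) (v 1)) ψ v := by
  induction ψ with
  | label B hB i j =>
    intro v
    have h1 : (fun x : ℕ → ℕ → C =>
        Holds (fun v : Fin 2 → ℕ => x (v 0) (v 1)) (Formula.label B hB i j) v) =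
        fun x : ℕ → ℕ → C => x (v i) (v j) ∈ B := by
      funext x
      simp only [Holds]
      rfl
    rw [h1]
    exact meas_mem (meas_at _ _) hB
  | equal i j =>
    intro v
    have h1 : (fun x : ℕ → ℕ → C =>
        Holds (fun v : Fin 2 → ℕ => x (v 0) (v 1)) (Formula.equal i j) v) =
        fun _ : ℕ → ℕ → C => v i = v j := by
      funext x
      simp only [Holds]
    rw [h1]
    exact measurable_const
  | not φ ih =>
    intro v
    have h1 : (fun x : ℕ → ℕ → C =>
        Holds (fun v : Fin 2 → ℕ => x (v 0) (v 1)) (Formula.not φ) v) =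
        fun x : ℕ → ℕ → C => ¬ Holds (fun v : Fin 2 → ℕ => x (v 0) (v 1)) φ v := by
      funext x
      simp only [Holds]
    rw [h1]
    exact (ih v).not
  | conj φ ih =>
    intro v
    have h1 : (fun x : ℕ → ℕ → C =>
        Holds (fun v : Fin 2 → ℕ => x (v 0) (v 1)) (Formula.conj φ) v) =
        fun x : ℕ → ℕ → C => ∀ n, Holds (fun v : Fin 2 → ℕ => x (v 0) (v 1)) (φ n) v := by
      funext x
      simp only [Holds]
    rw [h1]
    exact Measurable.forall fun n => ih n v
  | cnt n i φ ih =>
    intro v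
    have h1 : (fun x : ℕ → ℕ → C =>
        Holds (fun v : Fin 2 → ℕ => x (v 0) (v 1)) (Formula.cnt n i φ) v) =
        fun x : ℕ → ℕ → C => (n : ℕ∞) ≤
          {a | Holds (fun v : Fin 2 → ℕ => x (v 0) (v 1)) φ (Function.update v i a)}.encard := by
      funext x
      simp only [Holds]
    rw [h1]
    exact meas_le_encard (S := fun x : ℕ → ℕ → C =>
      {a | Holds (fun v : Fin 2 → ℕ => x (v 0) (v 1)) φ (Function.update v i a)})
      (fun a => ih (Function.update v i a)) n

/-- MSR. The class is Borel. -/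
theorem pf_MSR : T_MSR := by
  intro C _ φ P hP
  have h1 : KO φ P = {x : ℕ → ℕ → C | (∀ a b, Tru x φ a b) ∧ (∀ a, ¬ x a a ∈ P) ∧
      (∀ a b c, x a b ∈ P → x b c ∈ P → x a c ∈ P) ∧
      ∀ a b, a ≠ b → x a b ∈ P ∨ x b a ∈ P} := by
    ext x
    exact ⟨fun h => ⟨h.1, h.2.irr, h.2.tra, h.2.tot⟩, fun h => ⟨h.1, h.2.1, h.2.2.1, h.2.2.2⟩⟩
  rw [h1, measurableSet_setOfPred]
  have h2 : ∀ a b : ℕ, Measurable fun x : ℕ → ℕ → C => x a b ∈ P := fun a b =>
    meas_mem (meas_at a b) hP
  refine (Measurable.forall fun a => Measurable.forall fun b => meas_holds φ ![a, b]).and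
    ((Measurable.forall fun a => (h2 a a).not).and
    ((Measurable.forall fun a => Measurable.forall fun b => Measurable.forall fun c =>
      (h2 a b).imp ((h2 b c).imp (h2 a c))).and
    (Measurable.forall fun a => Measurable.forall fun b =>
      measurable_const.imp ((h2 a b).or (h2 b a)))))

end Pool.Agent.H13.CO
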